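import Mathlib
import Pool.Agent.Y214.HB.Stm

/-!
Project HB: many primes obstruct an irreducible polynomial.
-/

set_option autoImplicit false

namespace Pool.Agent.Y932.HB

open Polynomial Pool.Agent.Y214.HB

theorem dv_of {R S T : Set ℕ} (hT : T.Finite) (hR : Dv R) (h : ∀ p ∈ R, p ∉ T → p ∈ S) :
    Dv S := by
  classical
  intro hS
  apply hR
  have hTs : Summable (fun k : ℕ => T.indicator (fun k : ℕ => (1 : ℝ) / k) k) := by
    apply summable_of_hasFiniteSupport
    apply hT.subset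
    intro k hk
    by_contra hkT
    exact hk (Set.indicator_of_notMem hkT _)
  refine Summable.of_nonneg_of_le (fun k => ?_) (fun k => ?_) (hS.add hTs)
  · exact Set.indicator_nonneg (fun _ _ => by positivity) k
  · have hS0 : 0 ≤ S.indicator (fun k : ℕ => (1 : ℝ) / k) k :=
      Set.indicator_nonneg (fun _ _ => by positivity) k
    have hT0 : 0 ≤ T.indicator (fun k : ℕ => (1 : ℝ) / k) k :=
      Set.indicator_nonneg (fun _ _ => by positivity) k
    by_cases hk : k ∈ R
    · rw [Set.indicator_of_mem hk]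
      by_cases hkT : k ∈ T
      · rw [Set.indicator_of_mem hkT]
        linarith
      · rw [Set.indicator_of_mem (h k hk hkT)]
        linarith
    · rw [Set.indicator_of_notMem hk]
      linarith

theorem dv_primes : Dv {p : ℕ | p.Prime} := not_summable_one_div_on_primes

theorem finite_dvd {m : ℕ} (hm : m ≠ 0) : {p : ℕ | p ∣ m}.Finite := by
  apply (Nat.divisors m).finite_toSet.subset
  intro p hp
  simp only [Finset.mem_coe, Nat.mem_divisors]
  exact ⟨hp, hm⟩

theorem base_const {n : ℕ} (G : MvPolynomial (Fin (n + 1)) ℤ) (hG : G ≠ 0) : Base (C G) := by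
  have h1 : G * MvPolynomial.X 0 ≠ 0 := mul_ne_zero hG (MvPolynomial.X_ne_zero 0)
  obtain ⟨a, ha⟩ : ∃ a : Fin (n + 1) → ℤ, MvPolynomial.eval a (G * MvPolynomial.X 0) ≠ 0 := by
    by_contra hcon
    push Not at hcon
    apply h1
    apply MvPolynomial.funext
    intro x
    rw [hcon x, map_zero]
  rw [map_mul, MvPolynomial.eval_X] at ha
  have h2 : (MvPolynomial.eval a G * a 0).natAbs ≠ 0 := Int.natAbs_ne_zero.mpr ha
  refine dv_of (finite_dvd h2) dv_primes ?_
  intro p hp hpT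
  have hp' : ¬ (p : ℤ) ∣ MvPolynomial.eval a G * a 0 := by
    intro h
    exact hpT (Int.natCast_dvd.mp h)
  refine ⟨hp, a, ⟨0, fun h => hp' (h.mul_left _)⟩, ?_, fun w => ?_⟩
  · rw [leadingCoeff_C]
    exact fun h => hp' (h.mul_right _)
  · rw [map_C, eval_C]
    exact fun h => hp' (h.mul_right _)

/-- the values of integral polynomials at a rational vector, modulo `p` -/
theorem red {n : ℕ} (p : ℕ) [Fact p.Prime] (a : Fin (n + 1) → ℚ) (a' : Fin (n + 1) → ℤ_[p])
    (ha : ∀ i, (a' i : ℚ_[p]) = (a i : ℚ_[p])) (b : Fin (n + 1) → ℤ)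
    (hb : ∀ i, (b i : ZMod p) = PadicInt.toZMod (a' i)) (D c : ℤ)
    (F : MvPolynomial (Fin (n + 1)) ℤ) (h : (c : ℚ) = D * evQ a F) :
    (c : ZMod p) = (D : ZMod p) * ((MvPolynomial.eval b F : ℤ) : ZMod p) := by
  have h1 : (c : ℤ_[p]) = (D : ℤ_[p]) * MvPolynomial.eval₂ (Int.castRingHom ℤ_[p]) a' F := by
    apply Subtype.coe_injective
    have h2 : (((MvPolynomial.eval₂ (Int.castRingHom ℤ_[p]) a' F : ℤ_[p])) : ℚ_[p]) =
        ((evQ a F : ℚ) : ℚ_[p]) := by
      have h3 : (PadicInt.Coe.ringHom (p := p)) (MvPolynomial.eval₂ (Int.castRingHom ℤ_[p]) a' F) =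
          (Rat.castHom ℚ_[p]) (evQ a F) := by
        rw [evQ, MvPolynomial.coe_eval₂Hom, MvPolynomial.hom_eval₂, MvPolynomial.hom_eval₂]
        have h8 : (PadicInt.Coe.ringHom (p := p)).comp (Int.castRingHom ℤ_[p]) =
            (Rat.castHom ℚ_[p]).comp (Int.castRingHom ℚ) := RingHom.ext_int _ _
        have h9 : (fun i => (PadicInt.Coe.ringHom (p := p)) (a' i)) =
            fun i => (Rat.castHom ℚ_[p]) (a i) := by
          funext i
          exact ha i
        rw [h8]
        exact congrArg (fun v => MvPolynomial.eval₂ ((Rat.castHom ℚ_[p]).comp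
          (Int.castRingHom ℚ)) v F) h9
      exact h3
    have h4 : ((c : ℚ) : ℚ_[p]) = ((D * evQ a F : ℚ) : ℚ_[p]) := by rw [h]
    push_cast at h4
    have h5 : (((c : ℤ_[p])) : ℚ_[p]) = (((D : ℤ_[p]) *
        MvPolynomial.eval₂ (Int.castRingHom ℤ_[p]) a' F : ℤ_[p]) : ℚ_[p]) := by
      push_cast
      rw [h2]
      exact h4
    exact h5
  have h6 := congrArg (PadicInt.toZMod (p := p)) h1
  rw [map_mul, map_intCast, map_intCast, MvPolynomial.hom_eval₂] at h6
  rw [h6]
  congr 1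
  have h7 : ((MvPolynomial.eval b F : ℤ) : ZMod p) =
      (Int.castRingHom (ZMod p)) (MvPolynomial.eval₂ (RingHom.id ℤ) b F) := rfl
  rw [h7, MvPolynomial.hom_eval₂]
  congr 1
  · exact RingHom.ext_int _ _
  · funext i
    exact (hb i).symm

theorem base_irr (h1 : S_SPEC) (h2 : S_NR) {n : ℕ} (P : (MvPolynomial (Fin (n + 1)) ℤ)[X])
    (hP : 2 ≤ P.natDegree) (hirr : Irreducible (toK P)) : Base P := by
  obtain ⟨a, ha0, hlc, hg0⟩ := h1 n P hP hirr
  have hdeg0 : (P.map (evQ a)).natDegree = P.natDegree := natDegree_map_of_leadingCoeff_ne_zero _ hlc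
  obtain ⟨D, hDm, hD⟩ := IsLocalization.integerNormalization_spec (nonZeroDivisors ℤ)
    (P.map (evQ a))
  set g : ℤ[X] := IsLocalization.integerNormalization (nonZeroDivisors ℤ) (P.map (evQ a)) with hg
  have hDZ : D ≠ 0 := nonZeroDivisors.ne_zero hDm
  have hD0 : ((D : ℤ) : ℚ) ≠ 0 := by exact_mod_cast hDZ
  have hgmap : g.map (Int.castRingHom ℚ) = C (((D : ℤ) : ℚ)) * P.map (evQ a) := by
    have h3 : g.map (Int.castRingHom ℚ) = g.map (algebraMap ℤ ℚ) := rfl
    rw [h3, hD]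
    ext k
    rw [coeff_C_mul, coeff_smul, zsmul_eq_mul]
  have hcoeff : ∀ k, ((g.coeff k : ℤ) : ℚ) = D * evQ a (P.coeff k) := by
    intro k
    have h4 := congrArg (fun q : ℚ[X] => q.coeff k) hgmap
    simp only [coeff_map, coeff_C_mul] at h4
    exact h4
  have hgirr : Irreducible (g.map (Int.castRingHom ℚ)) := by
    rw [hgmap]
    have hu : IsUnit (C (((D : ℤ) : ℚ))) := isUnit_C.mpr (isUnit_iff_ne_zero.mpr hD0)
    exact (irreducible_isUnit_mul hu).mpr hg0
  have hgdeg : g.natDegree = P.natDegree := by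
    rw [← hdeg0, ← natDegree_map_eq_of_injective (RingHom.injective_int (Int.castRingHom ℚ)) g,
      hgmap, natDegree_C_mul hD0]
  have hNR := h2 g (by rw [hgdeg]; exact hP) hgirr
  -- the primes that are lost
  have hm : (∏ i, (a i).den) * (a 0).num.natAbs ≠ 0 := by
    apply mul_ne_zero
    · exact Finset.prod_ne_zero_iff.mpr fun i _ => (a i).den_nz
    · exact Int.natAbs_ne_zero.mpr (Rat.num_ne_zero.mpr ha0)
  refine dv_of (finite_dvd hm) hNR ?_
  rintro p ⟨hp, hpl, hpw⟩ hpT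
  have : Fact p.Prime := ⟨hp⟩
  have hpT' : ¬ p ∣ (∏ i, (a i).den) * (a 0).num.natAbs := hpT
  have hden : ∀ i, ¬ p ∣ (a i).den := fun i h =>
    hpT' ((h.trans (Finset.dvd_prod_of_mem (fun i => (a i).den) (Finset.mem_univ i))).mul_right _)
  have hnum : ¬ (p : ℤ) ∣ (a 0).num := fun h =>
    hpT' ((Int.natCast_dvd.mp h).mul_left _)
  have hnorm : ∀ i, ‖((a i : ℚ) : ℚ_[p])‖ ≤ 1 := fun i => Padic.norm_rat_le_one (hden i)
  set a' : Fin (n + 1) → ℤ_[p] := fun i => ⟨(a i : ℚ_[p]), hnorm i⟩ with ha'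
  have ha'c : ∀ i, (a' i : ℚ_[p]) = (a i : ℚ_[p]) := fun i => rfl
  choose b hb using fun i => ZMod.intCast_surjective (PadicInt.toZMod (a' i))
  have hred : ∀ k, ((g.coeff k : ℤ) : ZMod p) =
      (D : ZMod p) * ((MvPolynomial.eval b (P.coeff k) : ℤ) : ZMod p) := fun k =>
    red p a a' ha'c b hb D (g.coeff k) (P.coeff k) (hcoeff k)
  have hb0 : ¬ (p : ℤ) ∣ b 0 := by
    intro h
    have h3 : (b 0 : ZMod p) = 0 := (ZMod.intCast_zmod_eq_zero_iff_dvd _ _).mpr h
    rw [hb 0] at h3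
    have h4 : a' 0 * ((a 0).den : ℤ_[p]) = ((a 0).num : ℤ_[p]) := by
      apply Subtype.coe_injective
      have h5 : (((a 0) * ((a 0).den : ℚ) : ℚ) : ℚ_[p]) = (((a 0).num : ℚ) : ℚ_[p]) := by
        rw [Rat.mul_den_eq_num]
      push_cast at h5
      have h6 : ((a' 0 * ((a 0).den : ℤ_[p]) : ℤ_[p]) : ℚ_[p]) =
          (((a 0).num : ℤ_[p]) : ℚ_[p]) := by
        push_cast
        exact h5
      exact h6
    have h5 := congrArg (PadicInt.toZMod (p := p)) h4
    rw [map_mul, h3, zero_mul, map_intCast] at h5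
    exact hnum ((ZMod.intCast_zmod_eq_zero_iff_dvd _ _).mp h5.symm)
  refine ⟨hp, b, ⟨0, hb0⟩, ?_, ?_⟩
  · intro h
    apply hpl
    have h3 := hred g.natDegree
    rw [← ZMod.intCast_zmod_eq_zero_iff_dvd, leadingCoeff, h3, hgdeg]
    have h4 : ((MvPolynomial.eval b (P.coeff P.natDegree) : ℤ) : ZMod p) = 0 :=
      (ZMod.intCast_zmod_eq_zero_iff_dvd _ _).mpr h
    rw [h4, mul_zero]
  · intro w h
    apply hpw w
    rw [← ZMod.intCast_zmod_eq_zero_iff_dvd] at h ⊢
    have h3 : g.map (Int.castRingHom (ZMod p)) =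
        C ((D : ℤ) : ZMod p) * ((P.map (MvPolynomial.eval b)).map (Int.castRingHom (ZMod p))) := by
      ext k
      rw [coeff_map, coeff_C_mul, coeff_map, coeff_map]
      exact hred k
    have h4 := congrArg (fun q : (ZMod p)[X] => q.eval (w : ZMod p)) h3
    simp only [eval_mul, eval_C] at h4
    have h5 : ∀ q : ℤ[X], (q.map (Int.castRingHom (ZMod p))).eval (w : ZMod p) =
        ((q.eval w : ℤ) : ZMod p) := fun q => by
      have := eval_map_apply (Int.castRingHom (ZMod p)) (p := q) w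
      exact this
    rw [h5, h5, h, mul_zero] at h4
    exact h4

theorem t_BASE (h1 : S_SPEC) (h2 : S_NR) : S_BASE := by
  intro n P hK
  rcases hK with ⟨G, hG, rfl⟩ | ⟨hP, hirr⟩
  · exact base_const G hG
  · exact base_irr h1 h2 P hP hirr

end Pool.Agent.Y932.HB
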